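import Pool.Agent.MWGR.StmtsE

/-!
# Row ECD of the table mwgr (from DMA and ECL)

`Ecl` is the statement `EclStmt` of `StmtsF.lean` (literal copy; `StmtsE` and `StmtsF` cannot be
imported together as long as both declare `FesStmt`).
-/

namespace Pool.Agent.MWGR.H80

open Pool.Agent.Helper14_MV Pool.Agent.Helper2_MV Pool.Agent.MVO Pool.Agent.MWL Pool.Agent.MWS
  Pool.Agent.MWH

/-- literal copy of `EclStmt` -/
def Ecl : Prop :=
  ∀ (n : ℕ) (θ : FIC), BG n (RR θ) → ∀ T : List ℕ, 1 ∈ T → 2 ∈ T → 0 ∉ T → ∀ m c g : ℕ, 1 ≤ m →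
    Dm n m (RR θ) → Nat.gcd c m ∣ g → Ec n c T (RR θ) → Ec n g T (RR θ)

theorem ecd (hDMA : DmaStmt) (hECL : Ecl) : EcdStmt := by
  intro n η hB T' h0 h3 h1 h2
  obtain ⟨⟨g, hg, hD⟩, -⟩ := hDMA n η hB
  have hn : Dm n n (RR η) := (hD n).2 hg
  have hE := hECL n η hB (3 :: T') (List.mem_cons_of_mem _ h1) (List.mem_cons_of_mem _ h2)
    (by rw [List.mem_cons]; rintro (h | h); · omega
        · exact h0 h)
  refine ⟨?_, ?_, ?_⟩
  · intro c c' hc hEc
    refine hE n c c' hB.pos hn ?_ hEc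
    rw [Nat.ModEq.gcd_eq hc]
    exact Nat.gcd_dvd_left _ _
  · intro c e hEc
    exact hE n c (c * e) hB.pos hn (dvd_mul_of_dvd_left (Nat.gcd_dvd_left _ _) e) hEc
  · intro c d hd hEc
    rcases Nat.eq_zero_or_pos d with rfl | hd0
    · exact hEc
    · exact hE d c (c + d) hd0 hd (dvd_add (Nat.gcd_dvd_left _ _) (Nat.gcd_dvd_right _ _)) hEc

end Pool.Agent.MWGR.H80
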